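import Pool.Agent.N963.GN.Stm2
import Pool.Agent.N963.GN.D3

set_option autoImplicit false

/-! Task T6 of the project GN: the mean square asymptotics contradict the Laguerre inequality with a
large factor. -/

namespace Pool.Agent.N868.GN

open Complex Filter Topology MeasureTheory Pool.Agent.N963.GN
open scoped ComplexConjugate

variable {K : ℂ → ℂ} {α : ℝ}

lemma den_sq {a : ℝ} (ha : 0 < a) (u t : ℝ) :
    ‖1 - I * ((u : ℂ) + t * I) / a‖ ^ 2 = (1 + t / a) ^ 2 + (u / a) ^ 2 := by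
  have h : 1 - I * ((u : ℂ) + t * I) / a = ((1 + t / a : ℝ) : ℂ) + ((-(u / a) : ℝ) : ℂ) * I := by
    have ha' : (a : ℂ) ≠ 0 := by exact_mod_cast ha.ne'
    push_cast
    field_simp
    ring_nf
    simp only [I_sq]
    ring
  rw [h, ← Complex.normSq_eq_norm_sq, Complex.normSq_add_mul_I]
  ring

lemma Ka_sq {a : ℝ} (ha : 0 < a) (u t : ℝ) :
    ‖Ka K a ((u : ℂ) + t * I)‖ ^ 2 =
      ‖K ((u : ℂ) + t * I)‖ ^ 2 / ((1 + t / a) ^ 2 + (u / a) ^ 2) := by
  rw [Ka, norm_div, div_pow, den_sq ha]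

lemma K_cont (hK : Kern K α) {t : ℝ} (ht : 0 ≤ t) (ht2 : t < α) :
    Continuous (fun u : ℝ => K ((u : ℂ) + t * I)) := by
  rw [continuous_iff_continuousAt]
  intro u
  have h1 : ContinuousAt K ((u : ℂ) + t * I) :=
    (hK.diff _ (by simp [abs_of_nonneg ht, ht2])).continuousAt
  exact ContinuousAt.comp (f := fun u : ℝ => ((u : ℂ) + t * I)) h1 (by fun_prop)

lemma K_int (hK : Kern K α) {t : ℝ} (ht : 0 ≤ t) (ht2 : t < α) :
    Integrable (fun u : ℝ => ‖K ((u : ℂ) + t * I)‖ ^ 2) := by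
  obtain ⟨C, hC, h⟩ := hK.dec t ht ht2 1
  refine (exp_abs_integrable (C ^ 2)).mono' ((K_cont hK ht ht2).norm.pow 2).aestronglyMeasurable
    (Eventually.of_forall fun u => ?_)
  have h1 := h ((u : ℂ) + t * I) (by simp [abs_of_nonneg ht])
  simp only [add_re, ofReal_re, mul_re, I_re, mul_zero, ofReal_im, I_im, mul_one,
    sub_self, add_zero, one_mul] at h1
  rw [Real.norm_of_nonneg (by positivity)]
  have h2 : Real.exp (-|u|) ≤ 1 := Real.exp_le_one_iff.2 (by linarith [abs_nonneg u])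
  calc ‖K ((u : ℂ) + t * I)‖ ^ 2 ≤ (C * Real.exp (-|u|)) ^ 2 := by gcongr
    _ = C ^ 2 * (Real.exp (-|u|) * Real.exp (-|u|)) := by ring
    _ ≤ C ^ 2 * (Real.exp (-|u|) * 1) := by gcongr
    _ = C ^ 2 * Real.exp (-|u|) := by ring

lemma Ka_int (hK : Kern K α) {a : ℝ} (ha : 0 < a) {t : ℝ} (ht : 0 ≤ t) (ht2 : t < α) :
    Integrable (fun u : ℝ => ‖Ka K a ((u : ℂ) + t * I)‖ ^ 2) := by
  refine (K_int hK ht ht2).mono' ((cont_line hK ha ht ht2).norm.pow 2).aestronglyMeasurable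
    (Eventually.of_forall fun u => ?_)
  rw [Real.norm_of_nonneg (by positivity)]
  gcongr
  exact norm_Ka_le ha (by simp [ht])

/-- upper bound of the second moment -/
lemma up1 (hK : Kern K α) {a : ℝ} (ha : 0 < a) {t : ℝ} (ht : 0 ≤ t) (ht2 : t < α) :
    ∫ u : ℝ, u ^ 2 * ‖Ka K a ((u : ℂ) + t * I)‖ ^ 2 ≤ a ^ 2 * ∫ u : ℝ, ‖K ((u : ℂ) + t * I)‖ ^ 2 := by
  rw [← integral_const_mul]
  refine integral_mono_of_nonneg (Eventually.of_forall fun u => by positivity)
    ((K_int hK ht ht2).const_mul _) (Eventually.of_forall fun u => ?_)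
  simp only
  rw [Ka_sq ha]
  have h1 : 0 < (1 + t / a) ^ 2 + (u / a) ^ 2 := by positivity
  rw [mul_div_assoc', div_le_iff₀ h1]
  have h2 : u ^ 2 ≤ a ^ 2 * ((1 + t / a) ^ 2 + (u / a) ^ 2) := by
    have : a ^ 2 * ((1 + t / a) ^ 2 + (u / a) ^ 2) = (a + t) ^ 2 + u ^ 2 := by
      field_simp
    rw [this]
    nlinarith [sq_nonneg (a + t)]
  calc u ^ 2 * ‖K ((u : ℂ) + t * I)‖ ^ 2
      ≤ (a ^ 2 * ((1 + t / a) ^ 2 + (u / a) ^ 2)) * ‖K ((u : ℂ) + t * I)‖ ^ 2 := by gcongr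
    _ = _ := by ring

/-- upper bound of the zeroth moment -/
lemma up0 (hK : Kern K α) {a : ℝ} (ha : 0 < a) {t : ℝ} (ht : 0 ≤ t) (ht2 : t < α) :
    ∫ u : ℝ, ‖Ka K a ((u : ℂ) + t * I)‖ ^ 2 ≤
      (1 + a ^ 2) * ∫ u : ℝ, ‖K ((u : ℂ) + t * I)‖ ^ 2 / (1 + u ^ 2) := by
  rw [← integral_const_mul]
  have hi : Integrable (fun u : ℝ => ‖K ((u : ℂ) + t * I)‖ ^ 2 / (1 + u ^ 2)) := by
    refine (K_int hK ht ht2).mono' ?_ (Eventually.of_forall fun u => ?_)
    · refine Continuous.aestronglyMeasurable ?_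
      refine ((K_cont hK ht ht2).norm.pow 2).div (by fun_prop) fun u => ?_
      positivity
    · rw [Real.norm_of_nonneg (by positivity)]
      exact div_le_self (by positivity) (by nlinarith [sq_nonneg u])
  refine integral_mono_of_nonneg (Eventually.of_forall fun u => by positivity)
    (hi.const_mul _) (Eventually.of_forall fun u => ?_)
  simp only
  rw [Ka_sq ha]
  have h1 : 0 < (1 + t / a) ^ 2 + (u / a) ^ 2 := by positivity
  have h3 : (0 : ℝ) < 1 + u ^ 2 := by positivity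
  rw [mul_div_assoc', div_le_div_iff₀ h1 h3]
  have h4 : 0 ≤ t / a := by positivity
  have h2 : 1 + u ^ 2 ≤ (1 + a ^ 2) * ((1 + t / a) ^ 2 + (u / a) ^ 2) := by
    have e : a ^ 2 * (u / a) ^ 2 = u ^ 2 := by field_simp
    have e2 : 1 ≤ (1 + t / a) ^ 2 := by nlinarith
    nlinarith [sq_nonneg (u / a), sq_nonneg a, mul_nonneg (sq_nonneg a) (sub_nonneg.2 e2)]
  calc ‖K ((u : ℂ) + t * I)‖ ^ 2 * (1 + u ^ 2)
      ≤ ‖K ((u : ℂ) + t * I)‖ ^ 2 * ((1 + a ^ 2) * ((1 + t / a) ^ 2 + (u / a) ^ 2)) := by gcongr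
    _ = _ := by ring

/-- lower bound of the zeroth moment -/
lemma low0 (hK : Kern K α) {a : ℝ} (ha : 0 < a) {t : ℝ} (ht : 0 ≤ t) (ht2 : t < α) :
    (∫ u in (0 : ℝ)..1, ‖K ((u : ℂ) + t * I)‖ ^ 2) ≤
      ((1 + α / a) ^ 2 + (1 / a) ^ 2) * ∫ u : ℝ, ‖Ka K a ((u : ℂ) + t * I)‖ ^ 2 := by
  have hα : 0 < α := hK.pos
  rw [intervalIntegral.integral_of_le zero_le_one]
  have hK1 := (K_int hK ht ht2).integrableOn (s := Set.Ioc (0 : ℝ) 1)
  have hK2 := Ka_int hK ha ht ht2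
  have s1 : ∫ u in Set.Ioc (0 : ℝ) 1, ‖K ((u : ℂ) + t * I)‖ ^ 2 ≤
      ∫ u in Set.Ioc (0 : ℝ) 1, ((1 + α / a) ^ 2 + (1 / a) ^ 2) * ‖Ka K a ((u : ℂ) + t * I)‖ ^ 2 := by
    refine setIntegral_mono_on hK1 (hK2.integrableOn.const_mul _) measurableSet_Ioc fun u hu => ?_
    rw [Ka_sq ha]
    have h1 : 0 < (1 + t / a) ^ 2 + (u / a) ^ 2 := by positivity
    rw [mul_div_assoc', le_div_iff₀ h1]
    have h2 : (1 + t / a) ^ 2 + (u / a) ^ 2 ≤ (1 + α / a) ^ 2 + (1 / a) ^ 2 := by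
      have := hu.1
      gcongr
      exact hu.2
    calc ‖K ((u : ℂ) + t * I)‖ ^ 2 * ((1 + t / a) ^ 2 + (u / a) ^ 2)
        ≤ ‖K ((u : ℂ) + t * I)‖ ^ 2 * ((1 + α / a) ^ 2 + (1 / a) ^ 2) := by gcongr
      _ = _ := by ring
  refine s1.trans ?_
  rw [integral_const_mul]
  refine mul_le_mul_of_nonneg_left ?_ (by positivity)
  exact setIntegral_le_integral hK2 (Eventually.of_forall fun u => by positivity)

/-- The inequality at one `δ`. -/
lemma key (hK : Kern K α) {a : ℝ} (ha : 0 < a) {A x1 b t t' : ℝ} (hA : 0 ≤ A) (hx1 : 1 ≤ x1)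
    (hb : x1 ≤ b) (ht : 0 ≤ t) (ht2 : t < α) (ht' : 0 ≤ t') (ht'2 : t' < α) (h1 : t' ≤ t)
    (h2 : (t - t') * b ≤ 1)
    (hSL : ∀ x : ℝ, x1 ≤ |x| → A * Real.log |x| * ‖Lt (fun u => Ka K a (u : ℂ)) x‖ ^ 2 ≤
      ((deriv (Lt (fun u => Ka K a (u : ℂ))) x) ^ 2 - Lt (fun u => Ka K a (u : ℂ)) x *
        deriv (deriv (Lt (fun u => Ka K a (u : ℂ)))) x).re) :
    A * Real.log b * (2 * Real.pi * (∫ u : ℝ, ‖Ka K a ((u : ℂ) + t * I)‖ ^ 2) -
      Real.exp 2 * (2 * Real.pi * ∫ u : ℝ, ‖Ka K a ((u : ℂ) + t' * I)‖ ^ 2)) ≤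
    4 * Real.pi * (∫ u : ℝ, u ^ 2 * ‖Ka K a ((u : ℂ) + t * I)‖ ^ 2) +
      Real.exp (2 * α * x1) * ∫ x : ℝ, |((deriv (Lt (fun u => Ka K a (u : ℂ))) x) ^ 2 -
        Lt (fun u => Ka K a (u : ℂ)) x * deriv (deriv (Lt (fun u => Ka K a (u : ℂ)))) x).re| := by
  obtain ⟨i1, i2, e1, e2⟩ := taskD K α hK a ha t ht ht2
  obtain ⟨j1, -, f1, -⟩ := taskD K α hK a ha t' ht' ht'2
  obtain ⟨-, k2, -, -⟩ := taskD K α hK a ha 0 le_rfl hK.pos
  simp only [mul_zero, zero_mul, Real.exp_zero, mul_one] at k2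
  rw [← e1, ← f1, ← e2]
  set G : ℂ → ℂ := Lt (fun u => Ka K a (u : ℂ)) with hG
  set q : ℝ → ℝ := fun x => ((deriv G x) ^ 2 - G x * deriv (deriv G) x).re with hq
  have hlogb : 0 ≤ Real.log b := Real.log_nonneg (hx1.trans hb)
  rw [← integral_const_mul, ← integral_sub i1 (j1.const_mul _), ← integral_const_mul,
    ← integral_const_mul, ← integral_add i2 (k2.abs.const_mul _)]
  refine integral_mono ((i1.sub (j1.const_mul _)).const_mul _) (i2.add (k2.abs.const_mul _)) fun x => ?_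
  simp only
  change A * Real.log b * (‖G x‖ ^ 2 * Real.exp (2 * t * x) -
    Real.exp 2 * (‖G x‖ ^ 2 * Real.exp (2 * t' * x))) ≤
    q x * Real.exp (2 * t * x) + Real.exp (2 * α * x1) * |q x|
  have hα : 0 < α := hK.pos
  -- left hand side is nonpositive for `x ≤ b`
  have hL : x ≤ b → ‖G x‖ ^ 2 * Real.exp (2 * t * x) -
      Real.exp 2 * (‖G x‖ ^ 2 * Real.exp (2 * t' * x)) ≤ 0 := by
    intro hx
    have : Real.exp (2 * t * x) ≤ Real.exp 2 * Real.exp (2 * t' * x) := by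
      rw [← Real.exp_add, Real.exp_le_exp]
      have : (t - t') * x ≤ 1 := by
        refine le_trans ?_ h2
        exact mul_le_mul_of_nonneg_left hx (by linarith)
      linarith
    have h3 : 0 ≤ ‖G x‖ ^ 2 := by positivity
    nlinarith [mul_le_mul_of_nonneg_left this h3]
  rcases le_or_gt |x| x1 with hx | hx
  · have hxb : x ≤ b := (le_abs_self x).trans (hx.trans hb)
    have hl : A * Real.log b * (‖G x‖ ^ 2 * Real.exp (2 * t * x) -
        Real.exp 2 * (‖G x‖ ^ 2 * Real.exp (2 * t' * x))) ≤ 0 :=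
      mul_nonpos_of_nonneg_of_nonpos (by positivity) (hL hxb)
    refine hl.trans ?_
    have h3 : Real.exp (2 * t * x) ≤ Real.exp (2 * α * x1) := by
      rw [Real.exp_le_exp]
      have : t * x ≤ α * x1 := by
        calc t * x ≤ t * x1 := mul_le_mul_of_nonneg_left ((le_abs_self x).trans hx) ht
          _ ≤ α * x1 := mul_le_mul_of_nonneg_right ht2.le (by linarith)
      linarith
    have h4 : -(|q x| * Real.exp (2 * t * x)) ≤ q x * Real.exp (2 * t * x) := by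
      rw [← neg_mul]
      exact mul_le_mul_of_nonneg_right (neg_abs_le _) (Real.exp_pos _).le
    have h5 : |q x| * Real.exp (2 * t * x) ≤ Real.exp (2 * α * x1) * |q x| := by
      rw [mul_comm]
      exact mul_le_mul_of_nonneg_right h3 (abs_nonneg _)
    linarith
  · have hq1 := hSL x hx.le
    have hlx : 0 ≤ Real.log |x| := Real.log_nonneg (hx1.trans hx.le)
    have hq0 : 0 ≤ q x := le_trans (by positivity) hq1
    have hr : 0 ≤ Real.exp (2 * α * x1) * |q x| := by positivity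
    rcases le_or_gt x b with hxb | hxb
    · have hl : A * Real.log b * (‖G x‖ ^ 2 * Real.exp (2 * t * x) -
          Real.exp 2 * (‖G x‖ ^ 2 * Real.exp (2 * t' * x))) ≤ 0 :=
        mul_nonpos_of_nonneg_of_nonpos (by positivity) (hL hxb)
      have : 0 ≤ q x * Real.exp (2 * t * x) := by positivity
      linarith
    · have hx0 : 0 < x := by linarith
      have hlog : Real.log b ≤ Real.log |x| := by
        rw [abs_of_pos hx0]
        exact Real.log_le_log (by linarith) hxb.le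
      have h6 : A * Real.log b * (‖G x‖ ^ 2 * Real.exp (2 * t * x)) ≤ q x * Real.exp (2 * t * x) := by
        calc A * Real.log b * (‖G x‖ ^ 2 * Real.exp (2 * t * x))
            = (A * Real.log b * ‖G x‖ ^ 2) * Real.exp (2 * t * x) := by ring
          _ ≤ (A * Real.log |x| * ‖G x‖ ^ 2) * Real.exp (2 * t * x) := by gcongr
          _ ≤ q x * Real.exp (2 * t * x) := by gcongr
      have h7 : 0 ≤ A * Real.log b * (Real.exp 2 * (‖G x‖ ^ 2 * Real.exp (2 * t' * x))) := by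
        positivity
      rw [mul_sub]
      linarith

theorem t_T6 : S_T6 := by
  intro K α hK hMS a ha hSL
  obtain ⟨C, c, p, δ0, hC, hc, hp, hδ0, hδ0α, hδ01, hM⟩ := hMS
  have hα : 0 < α := hK.pos
  have hpi := Real.pi_pos
  set κ : ℝ := (1 + α / a) ^ 2 + (1 / a) ^ 2 with hκ
  have hκ0 : 0 < κ := by positivity
  set A : ℝ := κ * (4 * a ^ 2 * C + 1) / c with hA
  have hA0 : 0 < A := by positivity
  obtain ⟨x1, hx1, hS⟩ := hSL A
  set B : ℝ := Real.exp (2 * α * x1) * ∫ x : ℝ, |((deriv (Lt (fun u => Ka K a (u : ℂ))) x) ^ 2 -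
        Lt (fun u => Ka K a (u : ℂ)) x * deriv (deriv (Lt (fun u => Ka K a (u : ℂ)))) x).re| with hB
  have hB0 : 0 ≤ B := by
    refine mul_nonneg (Real.exp_pos _).le (integral_nonneg fun x => abs_nonneg _)
  -- the inequality for small δ
  have hev : ∀ᶠ δ : ℝ in 𝓝[>] 0, A * (Real.pi * c / κ) -
      A * Real.pi * Real.exp 2 * (1 + a ^ 2) * C * δ ^ (p / 2) ≤
      4 * Real.pi * a ^ 2 * C + B * δ ^ p := by
    have hs : ∀ᶠ δ : ℝ in 𝓝[>] 0, δ < min (δ0 ^ 2) (min ((1 / x1) ^ 2) (Real.exp (-1))) := by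
      refine (eventually_lt_nhds (?_ : (0 : ℝ) < _)).filter_mono nhdsWithin_le_nhds
      have : 0 < x1 := by linarith
      positivity
    filter_upwards [hs, self_mem_nhdsWithin] with δ hδ hδp
    have hδp : (0 : ℝ) < δ := hδp
    have hd1 : δ < δ0 ^ 2 := lt_of_lt_of_le hδ (min_le_left _ _)
    have hd2 : δ < (1 / x1) ^ 2 :=
      lt_of_lt_of_le hδ ((min_le_right _ _).trans (min_le_left _ _))
    have hd3 : δ < Real.exp (-1) :=
      lt_of_lt_of_le hδ ((min_le_right _ _).trans (min_le_right _ _))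
    set s : ℝ := Real.sqrt δ with hs
    have hs0 : 0 < s := Real.sqrt_pos.2 hδp
    have hss : s ^ 2 = δ := Real.sq_sqrt hδp.le
    have hs1 : s < δ0 := by
      rw [hs]; exact (Real.sqrt_lt' hδ0).2 hd1
    have hs2 : s < 1 / x1 := by
      rw [hs]; exact (Real.sqrt_lt' (by positivity)).2 hd2
    have hs3 : s < 1 := hs1.trans hδ01
    have hδs : δ ≤ s := by rw [← hss]; nlinarith
    have hδ0' : δ ≤ δ0 := hδs.trans hs1.le
    have m1 := hM δ hδp hδ0' 1 (Or.inl rfl)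
    have m2 := hM s hs0 hs1.le 1 (Or.inl rfl)
    simp only [one_mul] at m1 m2
    obtain ⟨-, m1b, m1c⟩ := m1
    obtain ⟨m2a, -, -⟩ := m2
    have hb : x1 ≤ 1 / s := by
      rw [le_div_iff₀ hs0]
      rw [lt_div_iff₀ (by linarith)] at hs2
      linarith
    have K1 := key hK ha (A := A) (x1 := x1) (b := 1 / s) (t := α - δ) (t' := α - s) hA0.le hx1 hb
      (by linarith) (by linarith) (by linarith) (by linarith) (by linarith) (by
        rw [mul_one_div, div_le_one hs0]; linarith) hS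
    rw [← hB] at K1
    have U1 := up1 hK ha (t := α - δ) (by linarith) (by linarith)
    have U0 := up0 hK ha (t := α - s) (by linarith) (by linarith)
    have L0 := low0 hK ha (t := α - δ) (by linarith) (by linarith)
    rw [← hκ] at L0
    have hcast : ∀ x : ℝ, ((α - x : ℝ) : ℂ) = (α : ℂ) - x := fun x => by push_cast; ring
    set I1 := ∫ u : ℝ, ‖Ka K a ((u : ℂ) + ((α - δ : ℝ) : ℂ) * I)‖ ^ 2
    set I2 := ∫ u : ℝ, ‖Ka K a ((u : ℂ) + ((α - s : ℝ) : ℂ) * I)‖ ^ 2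
    set I3 := ∫ u : ℝ, u ^ 2 * ‖Ka K a ((u : ℂ) + ((α - δ : ℝ) : ℂ) * I)‖ ^ 2
    -- powers
    set D : ℝ := δ ^ (-p) with hD
    have hD0 : 0 < D := Real.rpow_pos_of_pos hδp _
    have hDinv : D * δ ^ p = 1 := by
      rw [hD, ← Real.rpow_add hδp]; simp
    have hsp : s ^ (-p) = D * δ ^ (p / 2) := by
      rw [hs, Real.sqrt_eq_rpow, ← Real.rpow_mul hδp.le, hD, ← Real.rpow_add hδp]
      congr 1
      ring
    -- logs
    set Lg : ℝ := Real.log (1 / δ) with hLg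
    have hLg1 : 1 ≤ Lg := by
      rw [hLg, one_div, Real.log_inv]
      have := Real.log_lt_log hδp hd3
      rw [Real.log_exp] at this
      linarith
    have hlogb : Real.log (1 / s) = Lg / 2 := by
      rw [hLg, one_div, one_div, Real.log_inv, Real.log_inv, hs, Real.log_sqrt hδp.le]
      ring
    rw [hlogb] at K1
    -- I1 lower
    have b1 : c * D / κ ≤ I1 := by
      rw [div_le_iff₀ hκ0]
      linarith
    have b2 : I2 ≤ (1 + a ^ 2) * (C * (D * δ ^ (p / 2))) := by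
      refine U0.trans ?_
      rw [← hsp]
      gcongr
    have b3 : I3 ≤ a ^ 2 * (C * D * Lg) := by
      refine U1.trans ?_
      gcongr
    have hexp : 0 < Real.exp 2 := Real.exp_pos 2
    have b4 : A * (Lg / 2) * (2 * Real.pi * (c * D / κ) -
        Real.exp 2 * (2 * Real.pi * ((1 + a ^ 2) * (C * (D * δ ^ (p / 2)))))) ≤
        4 * Real.pi * (a ^ 2 * (C * D * Lg)) + B := by
      refine le_trans ?_ (K1.trans ?_)
      · gcongr
      · gcongr
    have b5 : (D * Lg) * (A * (Real.pi * c / κ) -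
      A * Real.pi * Real.exp 2 * (1 + a ^ 2) * C * δ ^ (p / 2)) ≤
      (D * Lg) * (4 * Real.pi * a ^ 2 * C + B * δ ^ p) := by
      calc (D * Lg) * (A * (Real.pi * c / κ) -
          A * Real.pi * Real.exp 2 * (1 + a ^ 2) * C * δ ^ (p / 2))
          = A * (Lg / 2) * (2 * Real.pi * (c * D / κ) -
            Real.exp 2 * (2 * Real.pi * ((1 + a ^ 2) * (C * (D * δ ^ (p / 2)))))) := by ring
        _ ≤ 4 * Real.pi * (a ^ 2 * (C * D * Lg)) + B := b4
        _ ≤ 4 * Real.pi * (a ^ 2 * (C * D * Lg)) + B * Lg * (D * δ ^ p) := by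
            rw [hDinv, mul_one]
            nlinarith
        _ = (D * Lg) * (4 * Real.pi * a ^ 2 * C + B * δ ^ p) := by ring
    exact le_of_mul_le_mul_left b5 (by positivity)
  -- the limit
  have t1 : Tendsto (fun δ : ℝ => δ ^ (p / 2)) (𝓝[>] 0) (𝓝 0) := by
    have := ((Real.continuous_rpow_const (by positivity : 0 ≤ p / 2)).tendsto 0).mono_left
      (nhdsWithin_le_nhds (s := Set.Ioi 0))
    rwa [Real.zero_rpow (by positivity)] at this
  have t2 : Tendsto (fun δ : ℝ => δ ^ p) (𝓝[>] 0) (𝓝 0) := by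
    have := ((Real.continuous_rpow_const hp.le).tendsto 0).mono_left
      (nhdsWithin_le_nhds (s := Set.Ioi 0))
    rwa [Real.zero_rpow (by positivity)] at this
  have T1 := (tendsto_const_nhds (x := A * (Real.pi * c / κ))).sub
    (t1.const_mul (A * Real.pi * Real.exp 2 * (1 + a ^ 2) * C))
  have T2 := (tendsto_const_nhds (x := 4 * Real.pi * a ^ 2 * C)).add (t2.const_mul B)
  have hlim := le_of_tendsto_of_tendsto T1 T2 hev
  rw [mul_zero, mul_zero, sub_zero, add_zero] at hlim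
  have : A * (Real.pi * c / κ) = Real.pi * (4 * a ^ 2 * C + 1) := by
    rw [hA]; field_simp
  rw [this] at hlim
  nlinarith

end Pool.Agent.N868.GN

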