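import Pool.Agent.N782.GN.StmX
import Pool.Agent.N868.GN.TAll

/-!
# GN/XT: the dispersion for the Moebius function in a class
-/

set_option autoImplicit false

namespace Pool.Agent.N868.GN

open Finset Pool.Agent.N782.GN Filter Topology

theorem abs_bec_le (q0 g : ℕ) (w0 w : ZI) : |bec q0 g w0 w| ≤ 1 := by
  unfold bec
  split_ifs
  · exact abs_be_le g w
  · simp

theorem bec_zero (q0 g : ℕ) (w0 w : ZI) (h : ct w ≠ 1) : bec q0 g w0 w = 0 := by
  unfold bec
  split_ifs
  · exact be_zero g w h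
  · rfl

theorem nat_dvd_iff (m : ℕ) (z : ZI) : ((m : ℕ) : ZI) ∣ z ↔ m ∣ z.re.natAbs ∧ m ∣ z.im.natAbs := by
  have h : ((m : ℕ) : ZI) = (((m : ℤ)) : ZI) := by simp
  rw [h, Zsqrtd.intCast_dvd, Int.natCast_dvd, Int.natCast_dvd]

theorem lcm_dvd_iff' (q q0 : ℕ) (z : ZI) :
    ((Nat.lcm q q0 : ℕ) : ZI) ∣ z ↔ ((q : ℕ) : ZI) ∣ z ∧ ((q0 : ℕ) : ZI) ∣ z := by
  rw [nat_dvd_iff, nat_dvd_iff, nat_dvd_iff, Nat.lcm_dvd_iff, Nat.lcm_dvd_iff]
  tauto

/-- the sums over a class modulo `q` of the function restricted to a class modulo `q₀` -/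
theorem sum_bec (q0 g q : ℕ) (w0 r : ZI) (Y1 Y2 : ℝ) :
    (∀ δ x : ℝ, ∑ t ∈ (cls q r Y2).filter (fun t => Y1 < nz t), bec q0 g w0 t * sc δ x t = 0) ∨
    ∃ t0 : ZI, ∀ δ x : ℝ, ∑ t ∈ (cls q r Y2).filter (fun t => Y1 < nz t),
      bec q0 g w0 t * sc δ x t =
      ∑ t ∈ (cls (Nat.lcm q q0) t0 Y2).filter (fun t => Y1 < nz t), be g t * sc δ x t := by
  classical
  by_cases h : ∃ t0 : ZI, ((q : ℕ) : ZI) ∣ t0 - r ∧ ((q0 : ℕ) : ZI) ∣ t0 - w0
  · right
    obtain ⟨t0, ht1, ht2⟩ := h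
    refine ⟨t0, fun δ x => ?_⟩
    have e1 : ∀ t : ZI, bec q0 g w0 t * sc δ x t =
        if ((q0 : ℕ) : ZI) ∣ t - w0 then be g t * sc δ x t else 0 := by
      intro t
      unfold bec
      split_ifs <;> simp
    rw [sum_congr rfl fun t _ => e1 t, ← sum_filter, filter_filter]
    apply sum_congr _ fun _ _ => rfl
    ext t
    simp only [cls, mem_filter]
    have e2 : ((Nat.lcm q q0 : ℕ) : ZI) ∣ t - t0 ↔
        ((q : ℕ) : ZI) ∣ t - r ∧ ((q0 : ℕ) : ZI) ∣ t - w0 := by
      rw [lcm_dvd_iff']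
      constructor
      · rintro ⟨h1, h2⟩
        exact ⟨by simpa using dvd_add h1 ht1, by simpa using dvd_add h2 ht2⟩
      · rintro ⟨h1, h2⟩
        exact ⟨by simpa using dvd_sub h1 ht1, by simpa using dvd_sub h2 ht2⟩
    rw [e2]
    tauto
  · left
    intro δ x
    apply sum_eq_zero
    intro t ht
    simp only [cls, mem_filter] at ht
    have : bec q0 g w0 t = 0 := by
      unfold bec
      rw [if_neg]
      exact fun h2 => h ⟨t, ht.1.2, h2⟩
    rw [this, zero_mul]

theorem tx (h1 : S_TG) (h2 : S_MB) : S_TX := by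
  classical
  intro ε A B q0 hε hq0
  obtain ⟨A', B', C1, hC1, hTG⟩ := h1 ε A B hε
  obtain ⟨C2, hC2, hMB⟩ := h2 (ε / 4) (A' + 2 * B' + 2) (B + B' + 1) (by positivity)
  have hev : ∀ᶠ M : ℝ in atTop, Real.log M ^ B' ≤ M ^ (3 * ε / 4) ∧
      (q0 : ℝ) ≤ (4 * ε) ^ (B + B' + 1) * Real.log M ^ (B + 1) ∧
      1 ≤ (4 * ε) ^ (B + B' + 1) * Real.log M ^ (B' + 1) ∧
      16 * C2 ≤ (4 * ε) ^ (A' + 2 * B' + 2) * Real.log M ^ (4 * B' + 1 + 1) := by
    filter_upwards [ev_rpow (3 * ε / 4) (by positivity) B',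
      ev_pow ((4 * ε) ^ (B + B' + 1)) (q0 : ℝ) (by positivity) B,
      ev_pow ((4 * ε) ^ (B + B' + 1)) 1 (by positivity) B',
      ev_pow ((4 * ε) ^ (A' + 2 * B' + 2)) (16 * C2) (by positivity) (4 * B' + 1)]
      with M a b c d
    exact ⟨a, b, c, d⟩
  obtain ⟨M1, hM1⟩ := eventually_atTop.1 hev
  obtain ⟨M0, hM0⟩ : ∃ M0, M0 = max M1 3 := ⟨_, rfl⟩
  have hM03 : 3 ≤ M0 := by rw [hM0]; exact le_max_right _ _
  obtain ⟨K1, hK1⟩ : ∃ K1 : ℝ, K1 = ((bl (9 * M0 ^ 2)).card : ℝ) := ⟨_, rfl⟩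
  obtain ⟨K2, hK2⟩ : ∃ K2 : ℝ, K2 = ((bl (4 * M0 ^ 2)).card : ℝ) := ⟨_, rfl⟩
  have hK10 : 0 ≤ K1 := by rw [hK1]; positivity
  have hK20 : 0 ≤ K2 := by rw [hK2]; positivity
  refine ⟨C1 + K1 * K2 ^ 2 * Real.log M0 ^ A, ?_, ?_⟩
  · have : 0 ≤ Real.log M0 := Real.log_nonneg (by linarith)
    positivity
  intro M L R P D g w0 lam hM3 hL1 hLM hR1 hR2 hRP1 hRP2 hD1 hD2 hg1 hg2 hlam
  have hM0' : 0 < M := by linarith
  have hlog : 1 ≤ Real.log M := by
    rw [Real.le_log_iff_exp_le hM0']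
    have := Real.exp_one_lt_d9
    linarith
  have hL0 : 0 < L := by linarith
  -- lower bound for `R`
  have hML : M ^ ε ≤ M / L := by
    rw [le_div_iff₀ hL0]
    calc M ^ ε * L ≤ M ^ ε * M ^ (1 - ε) := by gcongr
      _ = M := by rw [← Real.rpow_add hM0']; simp
  have hRlow : M ^ (2 * ε) ≤ R := by
    refine le_trans ?_ hR1
    calc M ^ (2 * ε) = M ^ ε * M ^ ε := by rw [← Real.rpow_add hM0']; ring_nf
      _ ≤ M / L * M ^ ε := by gcongr
  have hR1' : 1 ≤ R := le_trans (Real.one_le_rpow (by linarith) (by positivity)) hRlow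
  have hR0 : 0 < R := by linarith
  have hε5 : ε ≤ 1 / 5 := by
    have h3 : M ^ (4 * ε) ≤ M ^ (1 - ε) := by
      calc M ^ (4 * ε) = (M ^ (2 * ε)) ^ 2 := by
            rw [← Real.rpow_natCast, ← Real.rpow_mul hM0'.le]; norm_num; ring_nf
        _ ≤ R ^ 2 := by gcongr
        _ ≤ _ := hR2
    have h4 := (Real.rpow_le_rpow_left_iff (by linarith : 1 < M)).1 h3
    linarith
  have hR2' : R ^ 2 ≤ M := by
    refine hR2.trans ?_
    calc M ^ (1 - ε) ≤ M ^ (1:ℝ) := Real.rpow_le_rpow_of_exponent_le (by linarith) (by linarith)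
      _ = M := Real.rpow_one M
  have hRM : R ≤ M := by nlinarith
  have hP0 : 0 < P := by
    have : 0 < R * P := lt_of_lt_of_le (by positivity) hRP1
    exact (pos_iff_pos_of_mul_pos this).1 hR0
  have hPM : P ≤ M := by nlinarith
  have hnn : 0 ≤ L ^ 2 * R ^ 2 / Real.log M ^ A := by positivity
  rcases le_or_gt M0 M with hbig | hsmall
  · -- large `M`
    obtain ⟨c1, c2, c3, c4⟩ := hM1 M ((le_max_left _ _).trans (hM0 ▸ hbig))
    have hV : Real.log M * (4 * ε) ≤ Real.log (4 * R ^ 2) := by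
      have h3 : M ^ (4 * ε) ≤ 4 * R ^ 2 := by
        calc M ^ (4 * ε) = (M ^ (2 * ε)) ^ 2 := by
              rw [← Real.rpow_natCast, ← Real.rpow_mul hM0'.le]; norm_num; ring_nf
          _ ≤ R ^ 2 := by gcongr
          _ ≤ 4 * R ^ 2 := by nlinarith
      have h4 := Real.log_le_log (by positivity) h3
      rw [Real.log_rpow hM0'] at h4
      linarith
    have hx0 : 0 < Real.log M * (4 * ε) := by positivity
    have key := hTG M L R P D (bec q0 g w0) lam hM3 hL1 hLM hR1 hR2 hRP1 hRP2 hD1 hD2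
      (abs_bec_le q0 g w0) (bec_zero q0 g w0) hlam (by
        intro q r Y1 Y2 hq1 hq2 hY1 hY2 hY3
        have b1 : (4 * R ^ 2) ^ (-(1 / 2) + ε / 4 : ℝ) ≤ L / M / Real.log M ^ B' := by
          rw [le_div_iff₀ (by positivity)]
          have e1 : (4 * R ^ 2) ^ (-(1 / 2) + ε / 4 : ℝ) ≤ R ^ (-1 + ε / 2) := by
            calc (4 * R ^ 2) ^ (-(1 / 2) + ε / 4 : ℝ) ≤ (R ^ 2) ^ (-(1 / 2) + ε / 4 : ℝ) := by
                  apply Real.rpow_le_rpow_of_nonpos (by positivity) (by nlinarith) (by linarith)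
              _ = R ^ (-1 + ε / 2) := by
                  rw [← Real.rpow_natCast, ← Real.rpow_mul hR0.le]
                  congr 1; push_cast; ring
          have e2 : R ^ (-1 + ε / 2) ≤ (L / M) * M ^ (-(3 * ε / 4)) := by
            have e3 : R ^ (-1 + ε / 2) = R ^ (-1 : ℝ) * R ^ (ε / 2) := by
              rw [← Real.rpow_add hR0]
            have e4 : R ^ (-1 : ℝ) ≤ (L / M) * M ^ (-ε) := by
              rw [Real.rpow_neg_one, Real.rpow_neg hM0'.le]
              have : (L / M) * (M ^ ε)⁻¹ = (M / L * M ^ ε)⁻¹ := by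
                rw [mul_inv, inv_div]
              rw [this]
              exact inv_anti₀ (by positivity) hR1
            have e5 : R ^ (ε / 2) ≤ M ^ (ε / 4) := by
              have : R ^ (ε / 2) = (R ^ 2) ^ (ε / 4) := by
                rw [← Real.rpow_natCast, ← Real.rpow_mul hR0.le]
                congr 1; push_cast; ring
              rw [this]
              exact Real.rpow_le_rpow (by positivity) hR2' (by positivity)
            calc R ^ (-1 + ε / 2) = R ^ (-1 : ℝ) * R ^ (ε / 2) := e3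
              _ ≤ ((L / M) * M ^ (-ε)) * M ^ (ε / 4) := by gcongr
              _ = (L / M) * M ^ (-(3 * ε / 4)) := by
                  rw [mul_assoc, ← Real.rpow_add hM0']; congr 2; ring
          calc (4 * R ^ 2) ^ (-(1 / 2) + ε / 4 : ℝ) * Real.log M ^ B'
              ≤ ((L / M) * M ^ (-(3 * ε / 4))) * M ^ (3 * ε / 4) := by
                gcongr
                exact e1.trans e2
            _ = L / M := by
                rw [mul_assoc, ← Real.rpow_add hM0']; simp
        have b2 : L / M / Real.log M ^ B' ≤ 1 := by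
          have hLM' : L ≤ M := by
            refine hLM.trans ?_
            calc M ^ (1 - ε) ≤ M ^ (1:ℝ) :=
                  Real.rpow_le_rpow_of_exponent_le (by linarith) (by linarith)
              _ = M := Real.rpow_one M
          rw [div_div, div_le_one (by positivity)]
          have h1 : 1 ≤ Real.log M ^ B' := one_le_pow₀ hlog
          calc L ≤ M := hLM'
            _ = M * 1 := (mul_one _).symm
            _ ≤ M * Real.log M ^ B' := mul_le_mul_of_nonneg_left h1 hM0'.le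
        have b3 : ((Nat.lcm q q0 : ℕ) : ℝ) ≤ Real.log (4 * R ^ 2) ^ (B + B' + 1) := by
          have b30 : ((Nat.lcm q q0 : ℕ) : ℝ) ≤ q * q0 := by
            exact_mod_cast Nat.le_of_dvd (Nat.mul_pos hq1 hq0) (Nat.lcm_dvd_mul q q0)
          refine b30.trans ?_
          calc (q : ℝ) * q0 ≤ Real.log M ^ B' *
              ((4 * ε) ^ (B + B' + 1) * Real.log M ^ (B + 1)) := by gcongr
            _ = (Real.log M * (4 * ε)) ^ (B + B' + 1) := by
                rw [mul_pow]; ring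
            _ ≤ _ := by gcongr
        have b4 : (g : ℝ) ≤ Real.log (4 * R ^ 2) ^ (B + B' + 1) := by
          refine hg2.trans ?_
          calc Real.log M ^ B = Real.log M ^ B * 1 := (mul_one _).symm
            _ ≤ Real.log M ^ B * ((4 * ε) ^ (B + B' + 1) * Real.log M ^ (B' + 1)) := by gcongr
            _ = (Real.log M * (4 * ε)) ^ (B + B' + 1) := by
                rw [mul_pow]; ring
            _ ≤ _ := by gcongr
        rcases sum_bec q0 g q w0 r Y1 Y2 with hz | ⟨t0, ht0⟩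
        · simp only [hz]
          simp only [ne_eq, OfNat.ofNat_ne_zero, not_false_eq_true, zero_pow,
            intervalIntegral.integral_zero]
          positivity
        simp only [ht0]
        refine (hMB (4 * R ^ 2) (L / M / Real.log M ^ B') Y1 Y2 (Nat.lcm q q0) g t0
          (by nlinarith) b1 b2 hY1 hY2 hY3 (Nat.lcm_pos hq1 hq0) b3 hg1 b4).trans ?_
        have b5 : C2 * (L / M / Real.log M ^ B') ^ 2 * (4 * R ^ 2) ^ 2 /
            Real.log (4 * R ^ 2) ^ (A' + 2 * B' + 2) ≤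
            C2 * (L / M / Real.log M ^ B') ^ 2 * (4 * R ^ 2) ^ 2 /
            (Real.log M * (4 * ε)) ^ (A' + 2 * B' + 2) := by gcongr
        refine b5.trans ?_
        rw [div_le_div_iff₀ (by positivity) (by positivity)]
        have hlp : 0 < Real.log M ^ B' := by positivity
        have b6 : C2 * (L / M / Real.log M ^ B') ^ 2 * (4 * R ^ 2) ^ 2 * Real.log M ^ A' =
            (L / M) ^ 2 * R ^ 4 * (16 * C2) * (Real.log M ^ A' / (Real.log M ^ B') ^ 2) := by
          field_simp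
          ring
        rw [b6]
        have b7 : (L / M) ^ 2 * R ^ 4 * (16 * C2) * (Real.log M ^ A' / (Real.log M ^ B') ^ 2) ≤
            (L / M) ^ 2 * R ^ 4 * ((4 * ε) ^ (A' + 2 * B' + 2) * Real.log M ^ (4 * B' + 1 + 1)) *
            (Real.log M ^ A' / (Real.log M ^ B') ^ 2) := by gcongr
        refine b7.trans (le_of_eq ?_)
        rw [mul_pow]
        field_simp
        ring)
    refine key.trans ?_
    have e : (C1 + K1 * K2 ^ 2 * Real.log M0 ^ A) * L ^ 2 * R ^ 2 / Real.log M ^ A =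
        C1 * L ^ 2 * R ^ 2 / Real.log M ^ A +
        (K1 * K2 ^ 2 * Real.log M0 ^ A) * (L ^ 2 * R ^ 2 / Real.log M ^ A) := by ring
    rw [e]
    have : 0 ≤ Real.log M0 := Real.log_nonneg (by linarith)
    have : 0 ≤ (K1 * K2 ^ 2 * Real.log M0 ^ A) * (L ^ 2 * R ^ 2 / Real.log M ^ A) := by
      positivity
    linarith
  · -- small `M`
    have hin : ∀ v : ZI, |∑ w ∈ (bl (4 * R ^ 2)).filter (fun w => R ^ 2 < nz w),
        bec q0 g w0 w * lam (w * v).re * psi D (Real.sqrt (nz (w * v)) / M)| ≤ K2 := by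
      intro v
      refine (abs_sum_le_sum_abs _ _).trans ?_
      have e1 : ∀ w ∈ (bl (4 * R ^ 2)).filter (fun w => R ^ 2 < nz w),
          |bec q0 g w0 w * lam (w * v).re * psi D (Real.sqrt (nz (w * v)) / M)| ≤ 1 := by
        intro w _
        rw [abs_mul, abs_mul]
        have a1 := abs_bec_le q0 g w0 w
        have a2 := hlam.1 (w * v).re
        obtain ⟨a3, a4⟩ := psi_bd D (Real.sqrt (nz (w * v)) / M)
        rw [abs_of_nonneg a3]
        calc |bec q0 g w0 w| * |lam (w * v).re| * psi D (Real.sqrt (nz (w * v)) / M) ≤ 1 * 1 * 1 := by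
              gcongr
          _ = 1 := by norm_num
      refine (sum_le_card_nsmul _ _ _ e1).trans ?_
      rw [nsmul_eq_mul, mul_one, hK2]
      have : ((bl (4 * R ^ 2)).filter (fun w => R ^ 2 < nz w)).card ≤ (bl (4 * M0 ^ 2)).card := by
        apply card_le_card
        refine (filter_subset _ _).trans (bl_mono ?_)
        nlinarith
      exact_mod_cast this
    have hout : ∑ v ∈ bl (9 * P ^ 2), Phi (Real.sqrt (nz v) / P) *
        (∑ w ∈ (bl (4 * R ^ 2)).filter (fun w => R ^ 2 < nz w),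
          bec q0 g w0 w * lam (w * v).re * psi D (Real.sqrt (nz (w * v)) / M)) ^ 2 ≤ K1 * K2 ^ 2 := by
      have e1 : ∀ v ∈ bl (9 * P ^ 2), Phi (Real.sqrt (nz v) / P) *
          (∑ w ∈ (bl (4 * R ^ 2)).filter (fun w => R ^ 2 < nz w),
            bec q0 g w0 w * lam (w * v).re * psi D (Real.sqrt (nz (w * v)) / M)) ^ 2 ≤ K2 ^ 2 := by
        intro v _
        obtain ⟨a1, a2⟩ := Phi_bd (Real.sqrt (nz v) / P)
        have a3 := hin v
        have a4 : (∑ w ∈ (bl (4 * R ^ 2)).filter (fun w => R ^ 2 < nz w),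
            bec q0 g w0 w * lam (w * v).re * psi D (Real.sqrt (nz (w * v)) / M)) ^ 2 ≤ K2 ^ 2 := by
          rw [← sq_abs]
          gcongr
        calc _ ≤ 1 * K2 ^ 2 := by
              apply mul_le_mul a2 a4 (sq_nonneg _) zero_le_one
          _ = K2 ^ 2 := one_mul _
      refine (sum_le_card_nsmul _ _ _ e1).trans ?_
      rw [nsmul_eq_mul]
      have : ((bl (9 * P ^ 2)).card : ℝ) ≤ K1 := by
        rw [hK1]
        have : (bl (9 * P ^ 2)).card ≤ (bl (9 * M0 ^ 2)).card := by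
          apply card_le_card (bl_mono _)
          nlinarith
        exact_mod_cast this
      gcongr
    refine hout.trans ?_
    have e : (C1 + K1 * K2 ^ 2 * Real.log M0 ^ A) * L ^ 2 * R ^ 2 / Real.log M ^ A =
        C1 * (L ^ 2 * R ^ 2 / Real.log M ^ A) +
        (K1 * K2 ^ 2) * (Real.log M0 ^ A / Real.log M ^ A * (L ^ 2 * R ^ 2)) := by
      ring
    rw [e]
    have h4 : Real.log M ≤ Real.log M0 := Real.log_le_log hM0' hsmall.le
    have h5 : 1 ≤ Real.log M0 ^ A / Real.log M ^ A := by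
      rw [one_le_div (by positivity)]
      gcongr
    have h6 : 1 ≤ L ^ 2 * R ^ 2 := by
      have : 1 ≤ L ^ 2 := one_le_pow₀ hL1
      have : 1 ≤ R ^ 2 := one_le_pow₀ hR1'
      nlinarith
    have h7 : 1 ≤ Real.log M0 ^ A / Real.log M ^ A * (L ^ 2 * R ^ 2) := by
      calc (1:ℝ) = 1 * 1 := by norm_num
        _ ≤ _ := by gcongr
    have h8 : K1 * K2 ^ 2 * 1 ≤ (K1 * K2 ^ 2) * (Real.log M0 ^ A / Real.log M ^ A * (L ^ 2 * R ^ 2)) := by
      gcongr
    have h9 : 0 ≤ C1 * (L ^ 2 * R ^ 2 / Real.log M ^ A) := by positivity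
    linarith

end Pool.Agent.N868.GN
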