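import Pool.Agent.N963.GN.StmM0

set_option autoImplicit false
set_option linter.unusedSectionVars false

/-!
# Project GN, task M0: Mathlib cusp forms for `Γ₁(N)` give the analytic data
-/

namespace Pool.Agent.N868.GN

open UpperHalfPlane hiding I
open Complex Filter Topology MatrixGroups CongruenceSubgroup
open scoped ComplexConjugate
open Pool.Agent.N963.GN

section

variable {N : ℕ} [NeZero N] {k : ℕ} (f : CuspForm (Gamma1 N : Subgroup (GL (Fin 2) ℝ)) (k : ℤ))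

theorem one_mem1 : (1 : ℝ) ∈ (Gamma1 N : Subgroup (GL (Fin 2) ℝ)).strictPeriods := by
  rw [strictPeriods_Gamma1]
  exact AddSubgroup.mem_zmultiples 1

theorem coeff_zero1 : (qExpansion 1 f).coeff 0 = 0 := by
  rw [CuspFormClass.qExpansion_coeff_zero (Γ := (Gamma1 N : Subgroup (GL (Fin 2) ℝ))) (k := (k : ℤ))
    f one_pos one_mem1]

theorem sum1 (τ : ℂ) (hτ : 0 < τ.im) :
    HasSum (fun n : ℕ => (qExpansion 1 f).coeff (n + 1) *
      cexp (2 * Real.pi * I * ((n + 1 : ℕ) : ℂ) * τ)) (f (ofComplex τ)) := by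
  have h := ModularForm.hasSum_qExpansion (Γ := (Gamma1 N : Subgroup (GL (Fin 2) ℝ)))
    (k := (k : ℤ)) f one_pos one_mem1 (ofComplex τ)
  have h2 := (hasSum_nat_add_iff' 1).2 h
  simp only [Finset.range_one, Finset.sum_singleton, coeff_zero1, zero_mul, sub_zero] at h2
  refine h2.congr_fun ?_
  intro m
  congr 1
  rw [ofComplex_apply_of_im_pos hτ]
  unfold Function.Periodic.qParam
  rw [← Complex.exp_nat_mul]
  simp only
  push_cast
  congr 1
  ring

theorem coeff_bound1 : ∃ B : ℝ, 0 ≤ B ∧ ∀ m : ℕ, 1 ≤ m →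
    ‖(qExpansion 1 f).coeff m‖ ≤ B * (m : ℝ) ^ k := by
  have h := CuspFormClass.qExpansion_isBigO (k := (k : ℤ)) (Γ := (Gamma1 N : Subgroup (GL (Fin 2) ℝ))) f
  rw [strictWidthInfty_Gamma1] at h
  obtain ⟨C, hC⟩ := h.bound
  obtain ⟨M, hM⟩ := eventually_atTop.1 hC
  set S : ℝ := ∑ m ∈ Finset.range M, ‖(qExpansion 1 f).coeff m‖ with hS
  have hS0 : 0 ≤ S := Finset.sum_nonneg fun m _ => by positivity
  refine ⟨|C| + S, by positivity, ?_⟩
  intro m hm
  have hm1 : (1 : ℝ) ≤ m := by exact_mod_cast hm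
  have hp : (1 : ℝ) ≤ (m : ℝ) ^ k := one_le_pow₀ hm1
  rcases lt_or_ge m M with hlt | hge
  · have h1 : ‖(qExpansion 1 f).coeff m‖ ≤ S :=
      Finset.single_le_sum (f := fun m : ℕ => ‖(qExpansion 1 f).coeff m‖)
        (fun i _ => by positivity) (Finset.mem_range.2 hlt)
    have h2 := abs_nonneg C
    calc ‖(qExpansion 1 f).coeff m‖ ≤ (|C| + S) * 1 := by linarith
      _ ≤ (|C| + S) * (m : ℝ) ^ k := by gcongr
  · have h1 := hM m hge
    have h3 : ‖(m : ℝ) ^ (((k : ℤ) : ℝ) / 2)‖ ≤ (m : ℝ) ^ k := by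
      rw [Real.norm_of_nonneg (Real.rpow_nonneg (by linarith) _), ← Real.rpow_natCast (m : ℝ) k]
      apply Real.rpow_le_rpow_of_exponent_le hm1
      push_cast
      have : (0 : ℝ) ≤ k := Nat.cast_nonneg _
      linarith
    calc ‖(qExpansion 1 f).coeff m‖ ≤ C * ‖(m : ℝ) ^ (((k : ℤ) : ℝ) / 2)‖ := h1
      _ ≤ |C| * ‖(m : ℝ) ^ (((k : ℤ) : ℝ) / 2)‖ := by
          gcongr
          exact le_abs_self C
      _ ≤ |C| * (m : ℝ) ^ k := by gcongr
      _ ≤ (|C| + S) * (m : ℝ) ^ k := by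
          gcongr
          linarith

theorem bound1 : ∃ B : ℝ, 0 ≤ B ∧ ∀ τ : ℂ, 0 < τ.im → ‖f (ofComplex τ)‖ ^ 2 * τ.im ^ k ≤ B := by
  obtain ⟨C, hC⟩ := CuspFormClass.petersson_bounded_left (k : ℤ)
    (Gamma1 N : Subgroup (GL (Fin 2) ℝ)) f f
  refine ⟨C, (norm_nonneg _).trans (hC (ofComplex I)), ?_⟩
  intro τ hτ
  have h1 := hC (ofComplex τ)
  rw [petersson, norm_mul, norm_mul, Complex.norm_conj, norm_zpow, zpow_natCast, Complex.norm_real,
    Real.norm_of_nonneg (ofComplex τ).im_pos.le] at h1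
  have h2 : (ofComplex τ).im = τ.im := by
    rw [ofComplex_apply_of_im_pos hτ]
    rfl
  rw [h2] at h1
  rw [sq]
  exact h1

theorem aut1 (a b' c d : ℤ) (h1 : a * d - b' * c = 1) (h2 : (N : ℤ) ∣ c) (h3 : (N : ℤ) ∣ a - 1)
    (h4 : (N : ℤ) ∣ d - 1) (τ : ℂ) (hτ : 0 < τ.im) :
    f (ofComplex ((a * τ + b') / (c * τ + d))) = (c * τ + d) ^ k * f (ofComplex τ) := by
  set g : SL(2, ℤ) := ⟨!![a, b'; c, d], by rw [Matrix.det_fin_two_of]; exact h1⟩ with hg
  have hgm : g ∈ Gamma1 N := by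
    rw [Gamma1_mem]
    refine ⟨?_, ?_, ?_⟩
    · have h5 := (ZMod.intCast_zmod_eq_zero_iff_dvd (a - 1) N).2 h3
      push_cast at h5
      exact sub_eq_zero.1 h5
    · have h5 := (ZMod.intCast_zmod_eq_zero_iff_dvd (d - 1) N).2 h4
      push_cast at h5
      exact sub_eq_zero.1 h5
    · exact (ZMod.intCast_zmod_eq_zero_iff_dvd c N).2 h2
  have h5 := SlashInvariantForm.slash_action_eqn_SL'' (Γ := Gamma1 N) (k := (k : ℤ)) f hgm
    (ofComplex τ)
  have h6 : ((g • ofComplex τ : ℍ) : ℂ) = (a * τ + b') / (c * τ + d) := by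
    rw [coe_specialLinearGroup_apply, ofComplex_apply_of_im_pos hτ]
    simp [hg]
  have h7 : ofComplex ((a * τ + b') / (c * τ + d)) = g • ofComplex τ := by
    rw [← h6, ofComplex_apply]
  rw [h7, h5]
  congr 1
  rw [zpow_natCast]
  congr 1
  rw [denom, ofComplex_apply_of_im_pos hτ]
  simp only [hg]
  have e1 : (((Matrix.SpecialLinearGroup.map (Int.castRingHom ℝ)) g : Matrix (Fin 2) (Fin 2) ℝ) 1 0) =
      (c : ℝ) := rfl
  have e2 : (((Matrix.SpecialLinearGroup.map (Int.castRingHom ℝ)) g : Matrix (Fin 2) (Fin 2) ℝ) 1 1) =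
      (d : ℝ) := rfl
  change (((((Matrix.SpecialLinearGroup.map (Int.castRingHom ℝ)) g : Matrix (Fin 2) (Fin 2) ℝ) 1 0 :
    ℝ) : ℂ)) * τ + (((((Matrix.SpecialLinearGroup.map (Int.castRingHom ℝ)) g :
    Matrix (Fin 2) (Fin 2) ℝ) 1 1 : ℝ) : ℂ)) = _
  rw [e1, e2]
  push_cast
  rfl

end

/-- A square root of unit absolute value. -/
theorem exists_kappa {ω : ℂ} (h : ‖ω‖ = 1) : ∃ κ : ℂ, κ ≠ 0 ∧ ω * κ = conj κ := by
  obtain ⟨s, hs⟩ := IsAlgClosed.exists_pow_nat_eq ω (n := 2) (by norm_num)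
  have h1 : ‖s‖ = 1 := by
    have h2 : ‖s‖ ^ 2 = 1 := by rw [← norm_pow, hs, h]
    have h3 : 0 ≤ ‖s‖ := norm_nonneg _
    nlinarith
  refine ⟨conj s, ?_, ?_⟩
  · intro h2
    rw [map_eq_zero] at h2
    rw [h2, norm_zero] at h1
    exact zero_ne_one h1
  · have h2 : s * conj s = 1 := by
      rw [Complex.mul_conj, Complex.normSq_eq_norm_sq, h1]
      norm_num
    rw [Complex.conj_conj, ← hs]
    linear_combination s * h2

/-- **Task M0.** -/
theorem t_M0 : S_M0 := by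
  intro N _ k hk f hb1 et hη hF
  have hN : (0 : ℝ) < N := by exact_mod_cast Nat.pos_of_ne_zero (NeZero.ne N)
  have hsN : 0 < Real.sqrt N := Real.sqrt_pos.2 hN
  have hNc : (N : ℂ) ≠ 0 := by exact_mod_cast hN.ne'
  have hsNc : ((Real.sqrt N : ℝ) : ℂ) ≠ 0 := by exact_mod_cast hsN.ne'
  have hsq : ((Real.sqrt N : ℝ) : ℂ) ^ 2 = N := by
    have : Real.sqrt N ^ 2 = N := Real.sq_sqrt hN.le
    exact_mod_cast this
  -- a point where `f` does not vanish
  obtain ⟨τ₀, hτ₀⟩ : ∃ τ : ℍ, f τ ≠ 0 := by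
    by_contra hcon
    push Not at hcon
    apply hb1
    have : (f : ℍ → ℂ) = 0 := funext hcon
    rw [this, qExpansion_zero]
    simp
  have hτne : (τ₀ : ℂ) ≠ 0 := UpperHalfPlane.ne_zero τ₀
  -- the absolute value of `η`
  have hηn : ‖et‖ ^ 2 = (N : ℝ) ^ k := by
    have him1 : 0 < (-1 / ((N : ℂ) * (τ₀ : ℂ))).im := by
      have h1 : (-1 / ((N : ℂ) * (τ₀ : ℂ))) = ((1 / N : ℝ) : ℂ) * (-(τ₀ : ℂ))⁻¹ := by
        push_cast
        field_simp
      rw [h1, Complex.im_ofReal_mul]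
      exact mul_pos (by positivity) τ₀.im_inv_neg_coe_pos
    have him2 : 0 < (-conj (τ₀ : ℂ)).im := by
      rw [Complex.neg_im, Complex.conj_im, neg_neg]
      exact τ₀.im_pos
    have him3 : 0 < (-conj (-1 / ((N : ℂ) * (τ₀ : ℂ)))).im := by
      rw [Complex.neg_im, Complex.conj_im, neg_neg]
      exact him1
    have h1 := hF ⟨_, him1⟩ τ₀ ⟨_, him3⟩ (by
      simp only
      field_simp) rfl
    have h2 := hF ⟨_, him2⟩ ⟨_, him3⟩ τ₀ (by
      simp only [map_div₀, map_neg, map_one, map_mul, Complex.conj_natCast]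
      have : conj (τ₀ : ℂ) ≠ 0 := by rwa [ne_eq, map_eq_zero]
      field_simp) (by
      simp only [map_neg, Complex.conj_conj, neg_neg])
    rw [h2] at h1
    simp only [map_mul, map_pow, map_neg, Complex.conj_conj] at h1
    have h3 : f τ₀ * ((N : ℂ) ^ k - et * conj et) = 0 := by
      have h4 : (-1 / ((N : ℂ) * (τ₀ : ℂ))) ^ k * (-(τ₀ : ℂ)) ^ k * (N : ℂ) ^ k = 1 := by
        rw [← mul_pow, ← mul_pow]
        have : -1 / ((N : ℂ) * (τ₀ : ℂ)) * -(τ₀ : ℂ) * (N : ℂ) = 1 := by field_simp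
        rw [this, one_pow]
      linear_combination (N : ℂ) ^ k * h1 + et * conj et * f τ₀ * h4
    have h4 : (N : ℂ) ^ k = et * conj et := sub_eq_zero.1 ((mul_eq_zero.1 h3).resolve_left hτ₀)
    rw [Complex.mul_conj, Complex.normSq_eq_norm_sq] at h4
    exact_mod_cast h4.symm
  set ω : ℂ := et * (I / ((Real.sqrt N : ℝ) : ℂ)) ^ k with hω
  have hωn : ‖ω‖ = 1 := by
    have h1 : ‖ω‖ ^ 2 = 1 := by
      rw [hω, norm_mul, norm_pow, norm_div, Complex.norm_I, Complex.norm_real,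
        Real.norm_of_nonneg hsN.le, mul_pow, hηn, ← pow_mul, mul_comm k 2, pow_mul, div_pow,
        one_pow, Real.sq_sqrt hN.le, ← mul_pow, mul_one_div_cancel hN.ne', one_pow]
    have h3 : 0 ≤ ‖ω‖ := norm_nonneg _
    nlinarith
  obtain ⟨κ, hκ, hκω⟩ := exists_kappa hωn
  refine ⟨κ, ⟨Nat.pos_of_ne_zero (NeZero.ne N), hk, sum1 f, hb1, coeff_bound1 f, bound1 f,
    fun a b' c d h1 h2 h3 h4 τ hτ => aut1 f a b' c d h1 h2 h3 h4 τ hτ, hκ, ?_⟩⟩
  intro u
  have hpt : ∀ u : ℝ, I * cexp (u : ℂ) / ((Real.sqrt N : ℝ) : ℂ) =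
      I * ((Real.exp u / Real.sqrt N : ℝ) : ℂ) := by
    intro u
    push_cast
    ring
  have him : ∀ u : ℝ, 0 < (I * ((Real.exp u / Real.sqrt N : ℝ) : ℂ)).im := by
    intro u
    rw [Complex.I_mul_im, Complex.ofReal_re]
    positivity
  have h1 := hF (ofComplex (I * ((Real.exp u / Real.sqrt N : ℝ) : ℂ)))
    (ofComplex (I * ((Real.exp (-u) / Real.sqrt N : ℝ) : ℂ)))
    (ofComplex (I * ((Real.exp u / Real.sqrt N : ℝ) : ℂ))) (by
      rw [ofComplex_apply_of_im_pos (him u), ofComplex_apply_of_im_pos (him (-u))]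
      simp only
      have h2 : cexp (-(u : ℂ)) * cexp (u : ℂ) = 1 := by
        rw [← Complex.exp_add, neg_add_cancel, Complex.exp_zero]
      push_cast
      rw [← hsq]
      field_simp
      linear_combination h2 * (I ^ 2) + Complex.I_sq) (by
      rw [ofComplex_apply_of_im_pos (him u)]
      simp only [map_mul, Complex.conj_I, Complex.conj_ofReal, neg_mul, neg_neg])
  unfold Km
  simp only
  rw [hpt, hpt, h1, ofComplex_apply_of_im_pos (him u)]
  simp only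
  have h3 : conj (cexp ((k : ℂ) * (u : ℂ) / 2)) = cexp ((k : ℂ) * (u : ℂ) / 2) := by
    rw [← Complex.exp_conj]
    congr 1
    simp [Complex.conj_ofNat]
  rw [map_mul, map_mul, h3, ← hκω, hω]
  have h4 : (I * ((Real.exp u / Real.sqrt N : ℝ) : ℂ)) ^ k =
      (I / ((Real.sqrt N : ℝ) : ℂ)) ^ k * cexp ((k : ℂ) * (u : ℂ)) := by
    rw [Complex.exp_nat_mul, ← mul_pow]
    congr 1
    push_cast
    ring
  have h5 : cexp ((k : ℂ) * (u : ℂ)) * cexp ((k : ℂ) * ((-u : ℝ) : ℂ) / 2) =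
      cexp ((k : ℂ) * (u : ℂ) / 2) := by
    rw [← Complex.exp_add]
    congr 1
    push_cast
    ring
  rw [h4, ← h5]
  ring

end Pool.Agent.N868.GN
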